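import Pool.Agent.R402.HB.Stm

set_option autoImplicit false
open scoped Topology
open Filter Set

namespace Pool.Agent.R402.HB

theorem diff_of (h1 : GenStm) (h2 : WeakStm) : DiffStm := by
  intro X _ _ _ hX S R z δ k hδ hk hball hdense σ C hC hσ ν x l
  set y : X := S x - ν • x with hy
  set N : ℂ → (X →L[ℂ] X) := fun μ => S - μ • (1 : X →L[ℂ] X) with hN
  have hNapp : ∀ μ v, N μ v = S v - μ • v := fun μ v => by simp [hN]
  have hNc : Continuous N := by
    rw [hN]
    exact continuous_const.sub (continuous_id.smul continuous_const)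
  obtain ⟨η, hη, C', hC', hG⟩ := h1 X S R z δ k hδ hk hball (fun μ => N μ * N ν) ν
    ((hNc.continuousAt).mul continuousAt_const) (by
      intro μ B hB
      have hBN : ∀ μ, B * N μ = N μ * B := by
        intro μ
        simp only [hN]
        rw [mul_sub, sub_mul, hB, mul_smul_comm, smul_mul_assoc, mul_one, one_mul]
      change B * (N μ * N ν) = N μ * N ν * B
      rw [← mul_assoc, hBN, mul_assoc, hBN, mul_assoc]) (by
      have hd : DenseRange (N ν) := by
        have := hdense ν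
        have e : (fun x : X => S x - ν • x) = N ν := by
          funext v
          exact (hNapp ν v).symm
        rwa [e] at this
      exact hd.comp hd (N ν).continuous)
  choose! G hG1 hG2 using hG
  have hGeq : ∀ μ, ‖μ - ν‖ < η → N μ (N ν (G μ x)) = R (N μ (N ν x)) := fun μ hμ => hG1 μ hμ x
  have hinj : ∀ μ a b, N μ a = N μ b → a = b := by
    intro μ a b h
    apply sub_eq_zero.1
    apply hσ.inj μ
    rw [← hNapp, map_sub, h, sub_self]
  have hσN : ∀ μ v, N μ (σ μ v) = R (N μ v) := fun μ v => by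
    rw [hNapp, hNapp]
    exact hσ.eq μ v
  have hyN : y = N ν x := by rw [hNapp]
  have hNN : ∀ μ v, N μ (N ν v) = N ν (N μ v) := by
    intro μ v
    simp only [hNapp, map_sub, map_smul, smul_sub]
    rw [smul_comm μ ν v]
    abel
  have ha : ∀ μ, ‖μ - ν‖ < η → σ μ y = N ν (G μ x) := by
    intro μ hμ
    apply hinj μ
    rw [hσN, hGeq μ hμ, hyN]
  have hb : ∀ μ, ‖μ - ν‖ < η → N μ (G μ x) = σ ν (N μ x) := by
    intro μ hμ
    apply hinj ν
    rw [hσN, ← hNN, hGeq μ hμ, hNN]
  have hkey : ∀ μ, ‖μ - ν‖ < η → σ μ y = σ ν y + (μ - ν) • (G μ x - σ ν x) := by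
    intro μ hμ
    have e1 : N ν (G μ x) = N μ (G μ x) + (μ - ν) • G μ x := by
      rw [hNapp, hNapp, sub_smul]
      abel
    have e2 : N μ x = y - (μ - ν) • x := by
      rw [hyN, hNapp, hNapp, sub_smul]
      abel
    rw [ha μ hμ, e1, hb μ hμ, e2, map_sub, map_smul, smul_sub]
    abel
  have hev : ∀ᶠ μ in 𝓝 ν, ‖μ - ν‖ < η := by
    have := Metric.ball_mem_nhds ν hη
    filter_upwards [this] with μ hμ
    rwa [Metric.mem_ball, dist_eq_norm] at hμ
  have hν : ‖ν - ν‖ < η := by simpa using hη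
  have hGlim : Tendsto (fun μ => l (G μ x)) (𝓝 ν) (𝓝 (l (G ν x))) := by
    refine h2 X hX (N ν) (fun v hv => hσ.inj ν v (by rw [← hNapp]; exact hv)) (C' * ‖x‖) (𝓝 ν)
      (fun μ => G μ x) (G ν x) ?_ ?_ l
    · filter_upwards [hev] with μ hμ
      exact hG2 μ hμ x
    · intro h
      have hc := (hσ.wc y h).tendsto ν
      rw [ha ν hν] at hc
      refine hc.congr' ?_
      filter_upwards [hev] with μ hμ
      rw [ha μ hμ]
  have hderiv : HasDerivAt (fun μ => l (σ μ y)) (l (G ν x) - l (σ ν x)) ν := by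
    rw [hasDerivAt_iff_tendsto_slope]
    have h3 : Tendsto (fun μ => l (G μ x) - l (σ ν x)) (𝓝[≠] ν) (𝓝 (l (G ν x) - l (σ ν x))) :=
      (hGlim.sub_const _).mono_left nhdsWithin_le_nhds
    refine h3.congr' ?_
    have hev' : ∀ᶠ μ in 𝓝[≠] ν, ‖μ - ν‖ < η := hev.filter_mono nhdsWithin_le_nhds
    filter_upwards [hev', self_mem_nhdsWithin] with μ hμ hne
    have hne' : μ - ν ≠ 0 := sub_ne_zero.2 hne
    have e : l (σ μ y) = l (σ ν y) + (μ - ν) * (l (G μ x) - l (σ ν x)) := by
      have e0 := congrArg l (hkey μ hμ)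
      have e1 : l (σ ν y + (μ - ν) • (G μ x - σ ν x))
          = l (σ ν y) + l ((μ - ν) • (G μ x - σ ν x)) := map_add l _ _
      have e2 : l ((μ - ν) • (G μ x - σ ν x)) = (μ - ν) * l (G μ x - σ ν x) := by
        rw [map_smul, smul_eq_mul]
      have e3 : l (G μ x - σ ν x) = l (G μ x) - l (σ ν x) := map_sub l _ _
      rw [e0, e1, e2, e3]
    rw [slope_def_field, e, add_sub_cancel_left, mul_div_cancel_left₀ _ hne']
  exact hderiv.differentiableAt

end Pool.Agent.R402.HB
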