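import Pool.Agent.R402.HB.Stm

set_option autoImplicit false
open scoped Topology
open Filter Set

namespace Pool.Agent.R402.HB

theorem holout_of (h1 : RectStm) (h2 : ResolvStm) : HolOutStm := by
  intro X _ _ _ hX S R σ C hC hσ a r hMO x l μ hμ
  have hd : r < dist μ a := by
    rw [Metric.mem_closedBall] at hμ
    exact not_le.1 hμ
  set ρ : ℝ := (if r ≤ 0 then 1 else dist μ a - r) with hρdef
  have hρ : 0 < ρ := by
    rw [hρdef]; split_ifs <;> linarith
  have hdisj : ∀ lam ∈ Metric.ball a r, lam ∉ Metric.ball μ ρ := by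
    intro lam hlam hlam'
    rw [Metric.mem_ball] at hlam hlam'
    have hr : ¬ r ≤ 0 := by
      intro h
      linarith [dist_nonneg (x := lam) (y := a)]
    rw [hρdef, if_neg hr] at hlam'
    have := dist_triangle_left μ a lam
    linarith
  set f : ℂ → ℂ := fun μ => l (σ μ x) with hf
  have hfc : Continuous f := hσ.wc x l
  have hbdd : ∀ μ, ‖σ μ x‖ ≤ C * ‖x‖ := fun μ =>
    ((σ μ).le_opNorm x).trans (mul_le_mul_of_nonneg_right (hσ.bd μ) (norm_nonneg x))
  have hcons : Complex.IsConservativeOn f (Metric.ball μ ρ) := by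
    intro z w hzw
    obtain ⟨J, hJ⟩ := h1 X hX (fun μ => σ μ x) (C * ‖x‖) hbdd (hσ.wc x) z w (fun _ => 1)
      continuousOn_const
    have hJ' : ∀ l : X →L[ℂ] ℂ, l J = rectInt z w (fun μ => l (σ μ x)) := by
      intro l'
      rw [hJ l']
      simp only [one_mul]
    have hJ0 : J = 0 := by
      apply hMO
      intro lam hlam
      exact h2 X hX S R σ C hC hσ x z w J hJ' lam (fun h => hdisj lam hlam (hzw h))
    have h3 : rectInt z w f = 0 := by
      rw [hf, ← hJ' l, hJ0, map_zero]
    rw [← add_eq_zero_iff_eq_neg, Complex.wedgeIntegral_add_wedgeIntegral_eq]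
    exact h3
  have hex : Complex.IsExactOn f (Metric.ball μ ρ) :=
    Complex.IsConservativeOn.isExactOn_ball hfc.continuousOn hcons
  have hd := Complex.IsExactOn.differentiableOn Metric.isOpen_ball hex
  exact (hd μ (Metric.mem_ball_self hρ)).differentiableAt (Metric.ball_mem_nhds μ hρ)

end Pool.Agent.R402.HB
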