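import Pool.Agent.R402.HB.Stm

set_option autoImplicit false
open scoped Topology
open Filter Set

namespace Pool.Agent.R402.HB

theorem liou : LiouStm := by
  intro φ C c hcont hbd hlim halt
  have hdiff : Differentiable ℂ φ := by
    by_contra hnd
    obtain ⟨μ₀, hμ₀⟩ : ∃ μ₀, ¬ DifferentiableAt ℂ φ μ₀ := by
      by_contra h
      push Not at h
      exact hnd h
    have hoff : ∀ μ, μ ≠ μ₀ → DifferentiableAt ℂ φ μ := by
      intro μ hμ
      have hd : 0 < dist μ μ₀ := dist_pos.2 hμ
      rcases halt μ₀ (dist μ μ₀ / 2) (by positivity) with h | h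
      · exact absurd (h μ₀ (Metric.mem_ball_self (by positivity))) hμ₀
      · apply h
        rw [Metric.mem_closedBall]
        linarith
    apply hμ₀
    have h1 : DifferentiableOn ℂ φ (univ \ {μ₀}) := fun μ hμ =>
      (hoff μ (fun h => hμ.2 h)).differentiableWithinAt
    have h2 := (Complex.differentiableOn_compl_singleton_and_continuousAt_iff
      (f := φ) (s := univ) (c := μ₀) Filter.univ_mem).1 ⟨h1, hcont.continuousAt⟩
    exact (h2 μ₀ (mem_univ _)).differentiableAt Filter.univ_mem
  have hconst : ∀ μ ν, φ μ = φ ν := by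
    intro μ ν
    refine hdiff.apply_eq_apply_of_bounded ?_ μ ν
    rw [isBounded_iff_forall_norm_le]
    refine ⟨C, ?_⟩
    rintro _ ⟨x, rfl⟩
    exact hbd x
  intro μ
  have h1 : Tendsto φ (cocompact ℂ) (𝓝 (φ μ)) :=
    tendsto_const_nhds.congr fun ν => hconst μ ν
  exact tendsto_nhds_unique h1 hlim

end Pool.Agent.R402.HB
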