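import Pool.Agent.R402.HB.Stm

/-! Assembly of project HB (helper402). -/

set_option autoImplicit false
open scoped Topology
open Filter Set

namespace Pool.Agent.R402.HB

theorem main_of (hBaire : BaireBStm) (hSig : SigStm) (hDiff : DiffStm) (hIn : HolInStm)
    (hOut : HolOutStm) (hL : LiouStm) (X : Type) [NormedAddCommGroup X] [NormedSpace ℂ X]
    [CompleteSpace X] (hX : Refl X) (S R : X →L[ℂ] X) (hne : S * R ≠ R * S)
    (hnm : ¬ IsMeagre {x : X | ∃ B : X →L[ℂ] X, B * S = S * B ∧ B x = R x}) :
    ∃ M : Submodule ℂ X, IsClosed (M : Set X) ∧ M ≠ ⊥ ∧ M ≠ ⊤ ∧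
      ∀ B : X →L[ℂ] X, B * S = S * B → ∀ x ∈ M, B x ∈ M := by
  by_contra hcon
  push Not at hcon
  -- no nontrivial closed hyperinvariant subspace
  have NH : ∀ M : Submodule ℂ X, IsClosed (M : Set X) →
      (∀ B : X →L[ℂ] X, B * S = S * B → ∀ x ∈ M, B x ∈ M) → M = ⊥ ∨ M = ⊤ := by
    intro M hM hinv
    by_contra h
    push Not at h
    obtain ⟨B, hB, x, hx, hBx⟩ := hcon M hM h.1 h.2
    exact hBx (hinv B hB x hx)
  have happ : ∀ B : X →L[ℂ] X, B * S = S * B → ∀ x, B (S x) = S (B x) := by
    intro B hB x
    have := congrArg (fun f : X →L[ℂ] X => f x) hB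
    simpa using this
  have hnscal : ∀ μ : ℂ, ∃ x : X, S x - μ • x ≠ 0 := by
    intro μ
    by_contra h
    push Not at h
    apply hne
    ext x
    have h1 : S (R x) = μ • R x := sub_eq_zero.1 (h (R x))
    have h2 : S x = μ • x := sub_eq_zero.1 (h x)
    change S (R x) = R (S x)
    rw [h1, h2, map_smul]
  set N : ℂ → (X →L[ℂ] X) := fun μ => S - μ • (1 : X →L[ℂ] X) with hN
  have hNapp : ∀ μ x, N μ x = S x - μ • x := fun μ x => by simp [hN]
  have hinj : ∀ (μ : ℂ) (x : X), S x - μ • x = 0 → x = 0 := by
    intro μ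
    have h := NH (LinearMap.ker (N μ : X →ₗ[ℂ] X)) ?_ ?_
    · rcases h with h | h
      · intro x hx
        have : x ∈ LinearMap.ker (N μ : X →ₗ[ℂ] X) := by
          rw [LinearMap.mem_ker]
          change N μ x = 0
          rw [hNapp, hx]
        rw [h] at this
        exact (Submodule.mem_bot ℂ).1 this
      · exfalso
        obtain ⟨x, hx⟩ := hnscal μ
        apply hx
        have : x ∈ LinearMap.ker (N μ : X →ₗ[ℂ] X) := by rw [h]; trivial
        rw [LinearMap.mem_ker] at this
        rw [← hNapp]
        exact this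
    · have : ((LinearMap.ker (N μ : X →ₗ[ℂ] X) : Submodule ℂ X) : Set X) = {x | N μ x = 0} := by
        ext x; rfl
      rw [this]
      exact isClosed_eq (N μ).continuous continuous_const
    · intro B hB x hx
      rw [LinearMap.mem_ker] at hx ⊢
      change N μ x = 0 at hx
      change N μ (B x) = 0
      rw [hNapp] at hx ⊢
      rw [← happ B hB, ← map_smul, ← map_sub, hx, map_zero]
  -- closures of hyperinvariant linear manifolds
  have hclos : ∀ M : Submodule ℂ X, (∀ B : X →L[ℂ] X, B * S = S * B → ∀ x ∈ M, B x ∈ M) →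
      M = ⊥ ∨ Dense (M : Set X) := by
    intro M hM
    rcases NH M.topologicalClosure (Submodule.isClosed_topologicalClosure M) (by
      intro B hB x hx
      have hx' : x ∈ closure (M : Set X) := hx
      have : B x ∈ closure (M : Set X) :=
        map_mem_closure B.continuous hx' (fun y hy => hM B hB y hy)
      exact this) with h | h
    · left
      rw [eq_bot_iff, ← h]
      exact Submodule.le_topologicalClosure M
    · right
      exact Submodule.dense_iff_topologicalClosure_eq_top.2 h
  have hdense : ∀ μ : ℂ, DenseRange fun x : X => S x - μ • x := by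
    intro μ
    rcases hclos (LinearMap.range (N μ : X →ₗ[ℂ] X)) (by
      rintro B hB _ ⟨x, rfl⟩
      refine ⟨B x, ?_⟩
      change N μ (B x) = B (N μ x)
      rw [hNapp, hNapp, map_sub, map_smul, happ B hB]) with h | h
    · exfalso
      obtain ⟨x, hx⟩ := hnscal μ
      apply hx
      have : N μ x ∈ LinearMap.range (N μ : X →ₗ[ℂ] X) := ⟨x, rfl⟩
      rw [h] at this
      rw [← hNapp]
      exact (Submodule.mem_bot ℂ).1 this
    · have : (LinearMap.range (N μ : X →ₗ[ℂ] X) : Set X) = Set.range fun x : X => S x - μ • x := by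
        ext y
        constructor
        · rintro ⟨x, rfl⟩
          exact ⟨x, (hNapp μ x).symm⟩
        · rintro ⟨x, rfl⟩
          exact ⟨x, hNapp μ x⟩
      rw [this] at h
      exact h
  obtain ⟨z, δ, k, hδ, hk, hball⟩ := hBaire X hX S R hnm
  obtain ⟨σ, C, hC, hσ⟩ := hSig X hX S R z δ k hδ hk hball hinj hdense
  have hdiff := hDiff X hX S R z δ k hδ hk hball hdense σ C hC hσ
  -- the manifold of a disc
  have hdich : ∀ (a : ℂ) (r : ℝ), (∀ v ∈ MO S (Metric.ball a r), v = 0) ∨
      Dense (MO S (Metric.ball a r)) := by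
    intro a r
    let M : Submodule ℂ X :=
      { carrier := MO S (Metric.ball a r)
        add_mem' := by
          intro v w hv hw lam hlam
          obtain ⟨u, hu⟩ := hv lam hlam
          obtain ⟨u', hu'⟩ := hw lam hlam
          refine ⟨u + u', ?_⟩
          rw [map_add, smul_add, ← hu, ← hu']
          abel
        zero_mem' := fun lam _ => ⟨0, by simp⟩
        smul_mem' := by
          intro c v hv lam hlam
          obtain ⟨u, hu⟩ := hv lam hlam
          refine ⟨c • u, ?_⟩
          rw [map_smul, ← hu, smul_sub, smul_comm] }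
    rcases hclos M (by
      intro B hB v hv lam hlam
      obtain ⟨u, hu⟩ := hv lam hlam
      refine ⟨B u, ?_⟩
      rw [← hu, map_sub, map_smul, happ B hB]) with h | h
    · left
      intro v hv
      have : v ∈ M := hv
      rw [h] at this
      exact (Submodule.mem_bot ℂ).1 this
    · right
      exact h
  have hfin : ∀ (x : X) (l : X →L[ℂ] ℂ) (μ : ℂ), l (σ μ x) = l (R x) := by
    intro x l
    refine hL (fun μ => l (σ μ x)) (‖l‖ * (C * ‖x‖)) (l (R x)) (hσ.wc x l) ?_ ?_ ?_
    · intro μ
      refine (l.le_opNorm _).trans (mul_le_mul_of_nonneg_left ?_ (norm_nonneg l))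
      exact ((σ μ).le_opNorm x).trans (mul_le_mul_of_nonneg_right (hσ.bd μ) (norm_nonneg x))
    · exact (l.continuous.tendsto _).comp (hσ.lim x)
    · intro a r _
      rcases hdich a r with h | h
      · right
        exact hOut X hX S R σ C hC hσ a r h x l
      · left
        exact hIn X S R σ C hC hσ hdiff a r h x l
  have hσR : ∀ x : X, σ 0 x = R x := by
    intro x
    refine (SeparatingDual.eq_iff_forall_dual_eq (R := ℂ)).2 fun l => ?_
    exact hfin x l 0
  apply hne
  ext x
  have h := hσ.eq 0 x
  rw [hσR x] at h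
  simpa using h

end Pool.Agent.R402.HB
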