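import Pool.Agent.R402.HB.Stm

set_option autoImplicit false
open scoped Topology
open Filter Set

namespace Pool.Agent.R402.HB

theorem rectInt_wedge (z w : ℂ) (f : ℂ → ℂ) :
    rectInt z w f = Complex.wedgeIntegral z w f + Complex.wedgeIntegral w z f := by
  rw [Complex.wedgeIntegral_add_wedgeIntegral_eq]
  rfl

theorem seg1 (z w : ℂ) {t : ℝ} (b : ℝ) (hb : b ∈ Set.uIcc z.im w.im) (ht : t ∈ Set.uIcc z.re w.re) :
    (t : ℂ) + b * Complex.I ∈ Complex.Rectangle z w := by
  rw [Complex.Rectangle, Complex.mem_reProdIm]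
  simp only [Complex.add_re, Complex.ofReal_re, Complex.mul_re, Complex.I_re, mul_zero,
    Complex.ofReal_im, Complex.I_im, mul_one, sub_self, add_zero, Complex.add_im, Complex.mul_im,
    zero_add]
  exact ⟨ht, hb⟩

theorem rectInt_add (z w : ℂ) (f g : ℂ → ℂ) (hf : ContinuousOn f (Complex.Rectangle z w))
    (hg : ContinuousOn g (Complex.Rectangle z w)) :
    rectInt z w (fun μ => f μ + g μ) = rectInt z w f + rectInt z w g := by
  have hh : ∀ (h : ℂ → ℂ), ContinuousOn h (Complex.Rectangle z w) → ∀ b ∈ Set.uIcc z.im w.im,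
      IntervalIntegrable (fun t : ℝ => h (t + b * Complex.I)) MeasureTheory.volume z.re w.re := by
    intro h hc b hb
    apply ContinuousOn.intervalIntegrable
    exact hc.comp (by fun_prop) (fun t ht => seg1 z w b hb ht)
  have hv : ∀ (h : ℂ → ℂ), ContinuousOn h (Complex.Rectangle z w) → ∀ b ∈ Set.uIcc z.re w.re,
      IntervalIntegrable (fun t : ℝ => h (b + t * Complex.I)) MeasureTheory.volume z.im w.im := by
    intro h hc b hb
    apply ContinuousOn.intervalIntegrable
    exact hc.comp (by fun_prop) (fun t ht => seg1 z w t ht hb)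
  unfold rectInt
  rw [intervalIntegral.integral_add (hh f hf _ Set.left_mem_uIcc) (hh g hg _ Set.left_mem_uIcc),
    intervalIntegral.integral_add (hh f hf _ Set.right_mem_uIcc) (hh g hg _ Set.right_mem_uIcc),
    intervalIntegral.integral_add (hv f hf _ Set.right_mem_uIcc) (hv g hg _ Set.right_mem_uIcc),
    intervalIntegral.integral_add (hv f hf _ Set.left_mem_uIcc) (hv g hg _ Set.left_mem_uIcc)]
  simp only [smul_eq_mul]
  ring

theorem rectInt_congr (z w : ℂ) (f g : ℂ → ℂ) (h : ∀ μ ∈ Complex.Rectangle z w, f μ = g μ) :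
    rectInt z w f = rectInt z w g := by
  unfold rectInt
  have e1 : ∀ b ∈ Set.uIcc z.im w.im, (∫ x : ℝ in z.re..w.re, f (x + b * Complex.I))
      = ∫ x : ℝ in z.re..w.re, g (x + b * Complex.I) := fun b hb =>
    intervalIntegral.integral_congr fun t ht => h _ (seg1 z w b hb ht)
  have e2 : ∀ b ∈ Set.uIcc z.re w.re, (∫ y : ℝ in z.im..w.im, f (b + y * Complex.I))
      = ∫ y : ℝ in z.im..w.im, g (b + y * Complex.I) := fun b hb =>
    intervalIntegral.integral_congr fun t ht => h _ (seg1 z w t ht hb)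
  rw [e1 _ Set.left_mem_uIcc, e1 _ Set.right_mem_uIcc, e2 _ Set.right_mem_uIcc,
    e2 _ Set.left_mem_uIcc]

theorem resolv_of (h : RectStm) : ResolvStm := by
  intro X _ _ _ hX S R σ C hC hσ x z w J hJ lam hlam
  have hne : ∀ μ ∈ Complex.Rectangle z w, μ - lam ≠ 0 := by
    intro μ hμ h0
    apply hlam
    rw [← sub_eq_zero.1 h0]
    exact hμ
  have hω : ContinuousOn (fun μ : ℂ => (μ - lam)⁻¹) (Complex.Rectangle z w) :=
    (continuousOn_id.sub continuousOn_const).inv₀ hne
  have hbdd : ∀ μ, ‖σ μ x‖ ≤ C * ‖x‖ := fun μ =>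
    ((σ μ).le_opNorm x).trans (mul_le_mul_of_nonneg_right (hσ.bd μ) (norm_nonneg x))
  obtain ⟨u, hu⟩ := h X hX (fun μ => σ μ x) (C * ‖x‖) hbdd (hσ.wc x) z w _ hω
  refine ⟨u, ?_⟩
  refine (SeparatingDual.eq_iff_forall_dual_eq (R := ℂ)).2 fun l => ?_
  set L : X →L[ℂ] ℂ := l.comp (S - lam • (1 : X →L[ℂ] X)) with hL
  have hLapp : ∀ v, L v = l (S v - lam • v) := fun v => by simp [hL]
  have h1 : l (S u - lam • u) = rectInt z w (fun μ => (μ - lam)⁻¹ * L (σ μ x)) := by
    rw [← hLapp, hu L]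
  have h2 : ∀ μ ∈ Complex.Rectangle z w, (μ - lam)⁻¹ * L (σ μ x)
      = (μ - lam)⁻¹ * l (R (S x - μ • x)) + l (σ μ x) := by
    intro μ hμ
    have e1 : S (σ μ x) - lam • σ μ x = R (S x - μ • x) + (μ - lam) • σ μ x := by
      rw [← hσ.eq μ x, sub_smul]
      abel
    rw [hLapp, e1, map_add, map_smul, smul_eq_mul, mul_add, ← mul_assoc,
      inv_mul_cancel₀ (hne μ hμ), one_mul]
  rw [h1, rectInt_congr z w _ _ h2]
  have hdiff : DifferentiableOn ℂ (fun μ : ℂ => (μ - lam)⁻¹ * l (R (S x - μ • x)))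
      (Complex.Rectangle z w) := by
    have d1 : DifferentiableOn ℂ (fun μ : ℂ => (μ - lam)⁻¹) (Complex.Rectangle z w) :=
      (differentiableOn_id.sub (differentiableOn_const _)).inv hne
    have d2 : DifferentiableOn ℂ (fun μ : ℂ => l (R (S x - μ • x))) (Complex.Rectangle z w) := by
      have : (fun μ : ℂ => l (R (S x - μ • x))) = fun μ : ℂ => l (R (S x)) - μ * l (R x) := by
        funext μ
        rw [map_sub, map_sub, map_smul, map_smul, smul_eq_mul]
      rw [this]
      exact ((differentiable_const _).sub (differentiable_id.mul (differentiable_const _))).differentiableOn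
    exact d1.mul d2
  rw [rectInt_add z w _ _ hdiff.continuousOn (hσ.wc x l).continuousOn]
  have h3 : rectInt z w (fun μ : ℂ => (μ - lam)⁻¹ * l (R (S x - μ • x))) = 0 :=
    Complex.integral_boundary_rect_eq_zero_of_differentiableOn _ z w hdiff
  rw [h3, zero_add, ← hJ l]

end Pool.Agent.R402.HB
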