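import Pool.Agent.R402.HB.Stm

set_option autoImplicit false
open scoped Topology
open Filter Set

namespace Pool.Agent.R402.HB

theorem sig_of (h1 : GenStm) (h2 : WeakStm) : SigStm := by
  intro X _ _ _ hX S R z δ k hδ hk hB hinj hdense
  -- local bound
  have hloc : ∀ μ₀ : ℂ, ∃ η : ℝ, 0 < η ∧ ∃ C : ℝ, 0 ≤ C ∧ ∀ μ : ℂ, ‖μ - μ₀‖ < η → ∀ x : X,
      ∃ u : X, S u - μ • u = R (S x - μ • x) ∧ ‖u‖ ≤ C * ‖x‖ := by
    intro μ₀
    have := h1 X S R z δ k hδ hk hB (fun μ => S - μ • (1 : X →L[ℂ] X)) μ₀ (by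
      apply Continuous.continuousAt
      fun_prop) (by
      intro μ B hBS
      rw [mul_sub, sub_mul, hBS, mul_smul_comm, smul_mul_assoc, mul_one, one_mul]) (by
      exact hdense μ₀)
    simpa using this
  -- uniqueness
  have huniq : ∀ (μ : ℂ) (u v : X), S u - μ • u = S v - μ • v → u = v := by
    intro μ u v h
    have : S (u - v) - μ • (u - v) = 0 := by
      rw [map_sub, smul_sub]
      have : S u - S v - (μ • u - μ • v) = (S u - μ • u) - (S v - μ • v) := by abel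
      rw [this, h, sub_self]
    exact sub_eq_zero.1 (hinj μ _ this)
  have hex : ∀ (μ : ℂ) (x : X), ∃ u : X, S u - μ • u = R (S x - μ • x) := by
    intro μ x
    obtain ⟨η, hη, C, hC, h⟩ := hloc μ
    obtain ⟨u, hu, _⟩ := h μ (by simpa using hη) x
    exact ⟨u, hu⟩
  choose τ hτ using hex
  have hbd : ∀ μ₀ : ℂ, ∃ η : ℝ, 0 < η ∧ ∃ C : ℝ, 0 ≤ C ∧ ∀ μ : ℂ, ‖μ - μ₀‖ < η →
      ∀ x : X, ‖τ μ x‖ ≤ C * ‖x‖ := by
    intro μ₀
    obtain ⟨η, hη, C, hC, h⟩ := hloc μ₀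
    refine ⟨η, hη, C, hC, fun μ hμ x => ?_⟩
    obtain ⟨u, hu, hb⟩ := h μ hμ x
    have : τ μ x = u := huniq μ _ _ (by rw [hτ, hu])
    rw [this]
    exact hb
  have hadd : ∀ μ x y, τ μ (x + y) = τ μ x + τ μ y := by
    intro μ x y
    apply huniq μ
    rw [hτ]
    have e1 : S (τ μ x + τ μ y) - μ • (τ μ x + τ μ y) =
        (S (τ μ x) - μ • τ μ x) + (S (τ μ y) - μ • τ μ y) := by
      rw [map_add, smul_add]
      abel
    rw [e1, hτ, hτ, ← map_add]
    congr 1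
    rw [map_add, smul_add]
    abel
  have hsmul : ∀ (μ : ℂ) (c : ℂ) x, τ μ (c • x) = c • τ μ x := by
    intro μ c x
    apply huniq μ
    rw [hτ]
    have e1 : S (c • τ μ x) - μ • (c • τ μ x) = c • (S (τ μ x) - μ • τ μ x) := by
      rw [map_smul, smul_sub, smul_comm]
    rw [e1, hτ, ← map_smul]
    congr 1
    rw [map_smul, smul_sub, smul_comm]
  have hop : ∀ μ : ℂ, ∃ T : X →L[ℂ] X, ∀ x, T x = τ μ x := by
    intro μ
    obtain ⟨η, hη, C, hC, h⟩ := hbd μ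
    let f : X →ₗ[ℂ] X :=
      { toFun := τ μ, map_add' := hadd μ, map_smul' := fun c x => hsmul μ c x }
    exact ⟨f.mkContinuous C (fun x => h μ (by simpa using hη) x), fun x => rfl⟩
  choose σ hσ using hop
  have heq : ∀ (μ : ℂ) (x : X), S (σ μ x) - μ • σ μ x = R (S x - μ • x) := by
    intro μ x
    rw [hσ]
    exact hτ μ x
  have hlarge : ∀ (μ : ℂ) (x : X),
      (‖μ‖ - ‖S‖) * ‖σ μ x - R x‖ ≤ ‖R (S x) - S (R x)‖ := by
    intro μ x
    have e1 : S (σ μ x - R x) - μ • (σ μ x - R x) = R (S x) - S (R x) := by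
      rw [map_sub, smul_sub]
      have e2 : S (σ μ x) - S (R x) - (μ • σ μ x - μ • R x) =
          (S (σ μ x) - μ • σ μ x) - S (R x) + μ • R x := by abel
      rw [e2, heq, map_sub, map_smul]
      abel
    have e3 : μ • (σ μ x - R x) = S (σ μ x - R x) - (R (S x) - S (R x)) := by
      rw [← e1]
      abel
    have e4 : ‖μ‖ * ‖σ μ x - R x‖ ≤ ‖S‖ * ‖σ μ x - R x‖ + ‖R (S x) - S (R x)‖ := by
      rw [← norm_smul, e3]
      have a := norm_sub_le (S (σ μ x - R x)) (R (S x) - S (R x))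
      have b := S.le_opNorm (σ μ x - R x)
      linarith
    linarith
  have hK : ∃ C : ℝ, ∀ μ ∈ Metric.closedBall (0 : ℂ) (‖S‖ + 1), ‖σ μ‖ ≤ C := by
    apply (isCompact_closedBall (0 : ℂ) (‖S‖ + 1)).induction_on
      (p := fun s => ∃ C : ℝ, ∀ μ ∈ s, ‖σ μ‖ ≤ C)
    · exact ⟨0, by simp⟩
    · rintro s t hst ⟨C, hC⟩
      exact ⟨C, fun μ hμ => hC μ (hst hμ)⟩
    · rintro s t ⟨C, hC⟩ ⟨D, hD⟩
      refine ⟨max C D, fun μ hμ => ?_⟩
      rcases hμ with h | h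
      · exact (hC μ h).trans (le_max_left _ _)
      · exact (hD μ h).trans (le_max_right _ _)
    · intro μ₀ _
      obtain ⟨η, hη, C, hC, h⟩ := hbd μ₀
      refine ⟨Metric.ball μ₀ η, mem_nhdsWithin_of_mem_nhds (Metric.ball_mem_nhds μ₀ hη), C,
        fun μ hμ => ?_⟩
      apply ContinuousLinearMap.opNorm_le_bound _ hC
      intro x
      rw [hσ]
      exact h μ (by simpa [dist_eq_norm] using hμ) x
  obtain ⟨C₁, hC₁⟩ := hK
  have hbound : ∀ μ, ‖σ μ‖ ≤ max C₁ (2 * ‖R‖ * ‖S‖ + ‖R‖) := by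
    intro μ
    by_cases hμ : μ ∈ Metric.closedBall (0 : ℂ) (‖S‖ + 1)
    · exact (hC₁ μ hμ).trans (le_max_left _ _)
    · refine le_trans ?_ (le_max_right _ _)
      have hμ' : ‖S‖ + 1 < ‖μ‖ := by
        simpa using hμ
      apply ContinuousLinearMap.opNorm_le_bound _ (by positivity)
      intro x
      have a := hlarge μ x
      have b : ‖σ μ x - R x‖ ≤ (‖μ‖ - ‖S‖) * ‖σ μ x - R x‖ := by
        have : (1 : ℝ) ≤ ‖μ‖ - ‖S‖ := by linarith
        nlinarith [norm_nonneg (σ μ x - R x)]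
      have c1 : ‖R (S x)‖ ≤ ‖R‖ * (‖S‖ * ‖x‖) :=
        (R.le_opNorm _).trans (mul_le_mul_of_nonneg_left (S.le_opNorm _) (norm_nonneg _))
      have c2 : ‖S (R x)‖ ≤ ‖S‖ * (‖R‖ * ‖x‖) :=
        (S.le_opNorm _).trans (mul_le_mul_of_nonneg_left (R.le_opNorm _) (norm_nonneg _))
      have c3 := norm_sub_le (R (S x)) (S (R x))
      have c4 : ‖σ μ x‖ ≤ ‖σ μ x - R x‖ + ‖R x‖ := by
        have := norm_add_le (σ μ x - R x) (R x)
        rwa [sub_add_cancel] at this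
      have c5 := R.le_opNorm x
      calc ‖σ μ x‖ ≤ ‖R‖ * (‖S‖ * ‖x‖) + ‖S‖ * (‖R‖ * ‖x‖) + ‖R‖ * ‖x‖ := by linarith
        _ = (2 * ‖R‖ * ‖S‖ + ‖R‖) * ‖x‖ := by ring
  obtain ⟨C, hCdef⟩ : ∃ C, C = max C₁ (2 * ‖R‖ * ‖S‖ + ‖R‖) := ⟨_, rfl⟩
  rw [← hCdef] at hbound
  have hC0 : 0 ≤ C := (norm_nonneg _).trans (hbound 0)
  refine ⟨σ, C, hC0, hinj, heq, hbound, ?_, ?_⟩
  · intro x
    rw [tendsto_iff_norm_sub_tendsto_zero]
    have ht : Tendsto (fun μ : ℂ => ‖R (S x) - S (R x)‖ / (‖μ‖ - ‖S‖)) (cocompact ℂ) (𝓝 0) := by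
      apply Tendsto.div_atTop tendsto_const_nhds
      exact tendsto_atTop_add_const_right _ (-‖S‖) (tendsto_norm_cocompact_atTop (E := ℂ))
    refine squeeze_zero' (Eventually.of_forall fun μ => norm_nonneg _) ?_ ht
    filter_upwards [(tendsto_norm_cocompact_atTop (E := ℂ)).eventually_gt_atTop ‖S‖] with μ hμ
    rw [le_div_iff₀ (by linarith), mul_comm]
    exact hlarge μ x
  · intro x l
    rw [continuous_iff_continuousAt]
    intro μ₀
    have hnorm : Tendsto (fun μ : ℂ => R (S x - μ • x) + (μ - μ₀) • σ μ x) (𝓝 μ₀)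
        (𝓝 (R (S x - μ₀ • x) + 0)) := by
      apply Tendsto.add
      · have : Continuous (fun μ : ℂ => R (S x - μ • x)) := by fun_prop
        exact this.continuousAt
      · apply squeeze_zero_norm (a := fun μ : ℂ => ‖μ - μ₀‖ * (C * ‖x‖))
        · intro μ
          rw [norm_smul]
          apply mul_le_mul_of_nonneg_left _ (norm_nonneg _)
          exact (σ μ).le_of_opNorm_le (hbound μ) x
        · have : Continuous (fun μ : ℂ => ‖μ - μ₀‖ * (C * ‖x‖)) := by fun_prop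
          have h := this.tendsto μ₀
          simpa using h
    have e : ∀ μ, (S - μ₀ • (1 : X →L[ℂ] X)) (σ μ x) =
        R (S x - μ • x) + (μ - μ₀) • σ μ x := by
      intro μ
      rw [← heq]
      simp only [ContinuousLinearMap.sub_apply, ContinuousLinearMap.smul_apply,
        ContinuousLinearMap.one_apply, sub_smul]
      abel
    apply h2 X hX (S - μ₀ • (1 : X →L[ℂ] X)) (by
      intro y hy
      exact hinj μ₀ y (by simpa using hy)) (C * ‖x‖) (𝓝 μ₀) (fun μ => σ μ x) (σ μ₀ x)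
    · exact Eventually.of_forall fun μ => (σ μ).le_of_opNorm_le (hbound μ) x
    · intro h
      simp only [e]
      have e0 : R (S x - μ₀ • x) + (μ₀ - μ₀) • σ μ₀ x = R (S x - μ₀ • x) + 0 := by
        rw [sub_self, zero_smul]
      rw [e0]
      exact (h.continuous.tendsto _).comp hnorm

end Pool.Agent.R402.HB
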