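import Pool.Agent.R402.HB.Stm

set_option autoImplicit false
open scoped Topology
open Filter Set

namespace Pool.Agent.R402.HB


theorem ulb0 {X : Type} [NormedAddCommGroup X] [NormedSpace ℂ X]
    (hX : Function.Surjective (NormedSpace.inclusionInDoubleDual ℂ X)) (B : ℕ → X →L[ℂ] X) (k : ℝ)
    (hB : ∀ n, ‖B n‖ ≤ k) (𝒰 : Ultrafilter ℕ) :
    ∃ C : X →L[ℂ] X, ‖C‖ ≤ k ∧ ∀ (l : StrongDual ℂ X) (y : X),
      Tendsto (fun n => l (B n y)) (𝒰 : Filter ℕ) (𝓝 (l (C y))) := by
  have hk : 0 ≤ k := (norm_nonneg _).trans (hB 0)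
  have hbd : ∀ (x : StrongDual ℂ X) (y : X) (n : ℕ), ‖x (B n y)‖ ≤ k * ‖x‖ * ‖y‖ := by
    intro x y n
    calc ‖x (B n y)‖ ≤ ‖x‖ * ‖B n y‖ := x.le_opNorm _
      _ ≤ ‖x‖ * (k * ‖y‖) :=
          mul_le_mul_of_nonneg_left ((B n).le_of_opNorm_le (hB n) y) (norm_nonneg _)
      _ = _ := by ring
  have hex : ∀ (x : StrongDual ℂ X) (y : X), ∃ l : ℂ, ‖l‖ ≤ k * ‖x‖ * ‖y‖ ∧
      Tendsto (fun n => x (B n y)) (𝒰 : Filter ℕ) (𝓝 l) := by
    intro x y
    have hc : IsCompact (Metric.closedBall (0 : ℂ) (k * ‖x‖ * ‖y‖)) := isCompact_closedBall _ _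
    obtain ⟨l, hl, hle⟩ := hc.ultrafilter_le_nhds (𝒰.map fun n => x (B n y)) (by
      rw [Filter.le_principal_iff, Ultrafilter.coe_map, Filter.mem_map]
      refine Filter.univ_mem' fun n => ?_
      change x (B n y) ∈ Metric.closedBall (0 : ℂ) (k * ‖x‖ * ‖y‖)
      rw [mem_closedBall_zero_iff]
      exact hbd x y n)
    exact ⟨l, mem_closedBall_zero_iff.1 hl, hle⟩
  choose L hLn hL using hex
  have Ladd : ∀ x y y', L x (y + y') = L x y + L x y' := by
    intro x y y'
    refine tendsto_nhds_unique (hL x (y + y')) (((hL x y).add (hL x y')).congr fun n => ?_)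
    rw [map_add, map_add]
  have Lsmul : ∀ (c : ℂ) x y, L x (c • y) = c * L x y := by
    intro c x y
    refine tendsto_nhds_unique (hL x (c • y)) (((hL x y).const_mul c).congr fun n => ?_)
    rw [map_smul, map_smul, smul_eq_mul]
  have Ladd' : ∀ x x' y, L (x + x') y = L x y + L x' y := by
    intro x x' y
    refine tendsto_nhds_unique (hL (x + x') y) (((hL x y).add (hL x' y)).congr fun n => ?_)
    rfl
  have Lsmul' : ∀ (c : ℂ) x y, L (c • x) y = c * L x y := by
    intro c x y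
    refine tendsto_nhds_unique (hL (c • x) y) (((hL x y).const_mul c).congr fun n => ?_)
    rfl
  let φ : X → (StrongDual ℂ (StrongDual ℂ X)) := fun y => LinearMap.mkContinuous
    { toFun := fun x => L x y
      map_add' := fun x x' => by rw [Ladd']
      map_smul' := fun c x => by
        rw [Lsmul', RingHom.id_apply, smul_eq_mul] } (k * ‖y‖)
    (fun x => by
      change ‖L x y‖ ≤ k * ‖y‖ * ‖x‖
      refine (hLn x y).trans (le_of_eq ?_)
      ring)
  have hφ : ∀ y x, φ y x = L x y := fun _ _ => rfl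
  choose C0 hC using fun y => hX (φ y)
  have hC0 : ∀ (x : StrongDual ℂ X) (y : X), x (C0 y) = L x y := by
    intro x y
    rw [← hφ, ← hC, NormedSpace.dual_def]
  have Cadd : ∀ y y', C0 (y + y') = C0 y + C0 y' := by
    intro y y'
    refine SeparatingDual.eq_iff_forall_dual_eq (R := ℂ) |>.2 fun x => ?_
    rw [map_add, hC0, hC0, hC0, Ladd]
  have Csmul : ∀ (c : ℂ) y, C0 (c • y) = c • C0 y := by
    intro c y
    refine SeparatingDual.eq_iff_forall_dual_eq (R := ℂ) |>.2 fun x => ?_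
    rw [map_smul, hC0, hC0, Lsmul, smul_eq_mul]
  have Cbd : ∀ y, ‖C0 y‖ ≤ k * ‖y‖ := by
    intro y
    refine NormedSpace.norm_le_dual_bound ℂ _ (by positivity) fun x => ?_
    rw [hC0]
    refine (hLn x y).trans (le_of_eq ?_)
    ring
  let C : X →L[ℂ] X := LinearMap.mkContinuous
    { toFun := C0
      map_add' := Cadd
      map_smul' := fun c y => by rw [Csmul, RingHom.id_apply] } k Cbd
  refine ⟨C, LinearMap.mkContinuous_norm_le _ hk _, fun x y => ?_⟩
  have h2 : x (C y) = L x y := hC0 x y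
  rw [h2]
  exact hL x y


theorem ulb : ULBStm := by
  intro X _ _ _ hX B k hB 𝒰
  exact ulb0 hX B k hB 𝒰

end Pool.Agent.R402.HB
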